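import Pool.Agent.W485.BV.UD

set_option autoImplicit false

namespace Pool.Agent.W485.BV

open Finset Pool.Agent.W842.BV

section H1

variable {α : Type} [DecidableEq α] {t : ℕ}

theorem wt_le (𝒜 : Finset (Finset α)) (x : Fin t → α) (Q : Finset (Fin t)) :
    wt 𝒜 x Q ≤ 𝒜.card := card_le_card (filter_subset _ _)

theorem sum_wt (𝒜 : Finset (Finset α)) (x : Fin t → α) : ∑ Q, wt 𝒜 x Q = 𝒜.card := by
  have h := card_eq_sum_card_fiberwise (f := tr x) (s := 𝒜) (t := univ)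
    (fun A _ => mem_coe.mpr (mem_univ _))
  rw [h]
  rfl

/-- number of `j < N` with `j < a` -/
theorem count_lt (N a : ℕ) (ha : a ≤ N) :
    ∑ j ∈ range N, (if j < a then 1 else 0) = a := by
  rw [← sum_filter, sum_const, smul_eq_mul, mul_one]
  have : (range N).filter (fun j => j < a) = range a := by
    ext j; simp only [mem_filter, mem_range]; omega
  rw [this, card_range]

/-- the traces of weight larger than `j` -/
def Tj (𝒜 : Finset (Finset α)) (x : Fin t → α) (j : ℕ) : Finset (Finset (Fin t)) :=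
  univ.filter (fun Q => j < wt 𝒜 x Q)

theorem Wi_eq (𝒜 : Finset (Finset α)) (x : Fin t → α) (i : Fin t) :
    Wi 𝒜 x i = ∑ j ∈ range 𝒜.card, (ey i (Tj 𝒜 x j)).card := by
  unfold Wi
  have h1 : ∀ Q ∈ univ.filter (fun Q : Finset (Fin t) => i ∉ Q),
      min (wt 𝒜 x Q) (wt 𝒜 x (insert i Q)) =
      ∑ j ∈ range 𝒜.card, (if j < min (wt 𝒜 x Q) (wt 𝒜 x (insert i Q)) then 1 else 0) := by
    intro Q _
    exact (count_lt _ _ ((min_le_left _ _).trans (wt_le _ _ _))).symm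
  rw [sum_congr rfl h1, sum_comm]
  refine sum_congr rfl fun j _ => ?_
  rw [← sum_filter, sum_const, smul_eq_mul, mul_one, filter_filter]
  congr 1
  ext Q
  rw [mem_ey]
  simp only [Tj, mem_filter, mem_univ, true_and, lt_min_iff]
  tauto

end H1

theorem t_H1' (hT : S_TRV) (α : Type) [DecidableEq α] (𝒜 : Finset (Finset α)) (t : ℕ)
    (x : Fin t → α) : ∑ i, Wi 𝒜 x i ≤ 𝒜.vcDim * 𝒜.card := by
  simp only [Wi_eq]
  rw [sum_comm]
  have h1 : ∀ j ∈ range 𝒜.card, ∑ i, (ey i (Tj 𝒜 x j)).card ≤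
      𝒜.vcDim * (Tj 𝒜 x j).card := by
    intro j _
    refine ud_aux univ 𝒜.vcDim (Tj 𝒜 x j) (fun _ _ => subset_univ _) ?_
    refine hT α 𝒜 t x (Tj 𝒜 x j) fun Q hQ => ?_
    simp only [Tj, mem_filter, mem_univ, true_and] at hQ
    have : 0 < wt 𝒜 x Q := by omega
    obtain ⟨A, hA⟩ := card_pos.mp this
    rw [mem_filter] at hA
    exact ⟨A, hA.1, hA.2⟩
  refine (sum_le_sum h1).trans ?_
  rw [← mul_sum]
  refine Nat.mul_le_mul_left _ ?_
  have h2 : ∀ j ∈ range 𝒜.card, (Tj 𝒜 x j).card = ∑ Q, (if j < wt 𝒜 x Q then 1 else 0) := by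
    intro j _
    rw [← sum_filter, sum_const, smul_eq_mul, mul_one]
    rfl
  rw [sum_congr rfl h2, sum_comm]
  have h3 : ∀ Q ∈ (univ : Finset (Finset (Fin t))),
      ∑ j ∈ range 𝒜.card, (if j < wt 𝒜 x Q then 1 else 0) = wt 𝒜 x Q :=
    fun Q _ => count_lt _ _ (wt_le _ _ _)
  rw [sum_congr rfl h3, sum_wt]

theorem t_H1 : S_H1 := fun hT _ α _ 𝒜 t x => t_H1' hT α 𝒜 t x

end Pool.Agent.W485.BV
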