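import Pool.Agent.W842.BV.Stms

set_option autoImplicit false

namespace Pool.Agent.W485.BV

open Finset Pool.Agent.W842.BV

section H2

variable {α : Type} [Fintype α] [DecidableEq α]

/-- Double counting inside one class. -/
theorem class_bound (C : Finset (Finset α)) (r : ℕ)
    (hr : ∀ A ∈ C, ∀ B ∈ C, A ≠ B → r ≤ (symmDiff A B).card) (hC : C.Nonempty) :
    (C.card - 1) * r ≤
      2 * ∑ a, min (C.filter (fun A => a ∉ A)).card (C.filter (fun A => a ∈ A)).card := by
  set b := C.card with hb
  have hb1 : 1 ≤ b := card_pos.mpr hC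
  -- sum of products
  have h1 : ∑ a, (C.filter (fun A => a ∈ A)).card * (C.filter (fun A => a ∉ A)).card =
      ∑ p ∈ C ×ˢ C, (p.1 \ p.2).card := by
    have e1 : ∀ a : α, (C.filter (fun A => a ∈ A)).card * (C.filter (fun A => a ∉ A)).card =
        ∑ p ∈ C ×ˢ C, (if a ∈ p.1 \ p.2 then 1 else 0) := by
      intro a
      rw [← card_product, ← sum_filter, sum_const, smul_eq_mul, mul_one]
      congr 1
      ext p
      simp only [mem_product, mem_filter, mem_sdiff]
      tauto
    rw [sum_congr rfl fun a _ => e1 a, sum_comm]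
    refine sum_congr rfl fun p _ => ?_
    rw [← sum_filter, sum_const, smul_eq_mul, mul_one, filter_mem_eq_inter, univ_inter]
  have h2 : ∑ p ∈ C ×ˢ C, (p.1 \ p.2).card = ∑ p ∈ C ×ˢ C, (p.2 \ p.1).card := by
    rw [sum_product, sum_product_right]
  have h3 : 2 * ∑ p ∈ C ×ˢ C, (p.1 \ p.2).card = ∑ p ∈ C ×ˢ C, (symmDiff p.1 p.2).card := by
    rw [two_mul]
    conv_lhs => rw [h2]
    conv_lhs => enter [1]; rw [← h2]
    rw [← sum_add_distrib]
    refine sum_congr rfl fun p _ => ?_
    rw [symmDiff_def, sup_eq_union, card_union_of_disjoint]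
    exact disjoint_sdiff_sdiff
  have h4 : b * (b - 1) * r ≤ ∑ p ∈ C ×ˢ C, (symmDiff p.1 p.2).card := by
    have h5 : ∑ p ∈ C.offDiag, (symmDiff p.1 p.2).card ≤
        ∑ p ∈ C ×ˢ C, (symmDiff p.1 p.2).card := by
      refine sum_le_sum_of_subset ?_
      intro p hp
      rw [mem_offDiag] at hp
      exact mem_product.mpr ⟨hp.1, hp.2.1⟩
    have h6 : C.offDiag.card • r ≤ ∑ p ∈ C.offDiag, (symmDiff p.1 p.2).card := by
      refine card_nsmul_le_sum _ _ _ fun p hp => ?_
      rw [mem_offDiag] at hp
      exact hr _ hp.1 _ hp.2.1 hp.2.2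
    have h7 : C.offDiag.card = b * (b - 1) := by
      rw [offDiag_card, ← hb, Nat.mul_sub, mul_one]
    rw [h7, smul_eq_mul] at h6
    exact h6.trans h5
  have h8 : ∀ a : α, (C.filter (fun A => a ∈ A)).card * (C.filter (fun A => a ∉ A)).card ≤
      b * min (C.filter (fun A => a ∉ A)).card (C.filter (fun A => a ∈ A)).card := by
    intro a
    rcases le_total (C.filter (fun A => a ∉ A)).card (C.filter (fun A => a ∈ A)).card with h | h
    · rw [min_eq_left h]
      exact Nat.mul_le_mul_right _ (card_le_card (filter_subset _ _))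
    · rw [min_eq_right h, mul_comm]
      exact Nat.mul_le_mul_right _ (card_le_card (filter_subset _ _))
  have h9 : ∑ a, (C.filter (fun A => a ∈ A)).card * (C.filter (fun A => a ∉ A)).card ≤
      b * ∑ a, min (C.filter (fun A => a ∉ A)).card (C.filter (fun A => a ∈ A)).card := by
    rw [mul_sum]
    exact sum_le_sum fun a _ => h8 a
  have h10 : b * ((b - 1) * r) ≤ b * (2 * ∑ a, min (C.filter (fun A => a ∉ A)).card
      (C.filter (fun A => a ∈ A)).card) := by
    calc b * ((b - 1) * r) = b * (b - 1) * r := by ring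
      _ ≤ ∑ p ∈ C ×ˢ C, (symmDiff p.1 p.2).card := h4
      _ = 2 * ∑ p ∈ C ×ˢ C, (p.1 \ p.2).card := h3.symm
      _ = 2 * ∑ a, (C.filter (fun A => a ∈ A)).card * (C.filter (fun A => a ∉ A)).card := by
          rw [h1]
      _ ≤ 2 * (b * ∑ a, min (C.filter (fun A => a ∉ A)).card
            (C.filter (fun A => a ∈ A)).card) := Nat.mul_le_mul_left _ h9
      _ = _ := by ring
  exact Nat.le_of_mul_le_mul_left h10 hb1

theorem tr_insertNth {T : ℕ} (i : Fin (T + 1)) (a : α) (y : Fin T → α) (A : Finset α)
    (P : Finset (Fin T)) :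
    tr (i.insertNth (α := fun _ => α) a y) A = P.map i.succAboveEmb ↔
      tr y A = P ∧ a ∉ A := by
  constructor
  · intro h
    have h1 : ∀ l, l ∈ tr (i.insertNth (α := fun _ => α) a y) A ↔ l ∈ P.map i.succAboveEmb :=
      fun l => by rw [h]
    constructor
    · ext k
      have := h1 (i.succAbove k)
      simp only [tr, mem_filter, mem_univ, true_and, Fin.insertNth_apply_succAbove] at this ⊢
      rw [this]
      constructor
      · intro hk
        obtain ⟨k', hk', hkk⟩ := mem_map.mp hk
        have : k' = k := Fin.succAbove_right_injective hkk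
        rwa [← this]
      · intro hk; exact mem_map.mpr ⟨k, hk, rfl⟩
    · have := h1 i
      simp only [tr, mem_filter, mem_univ, true_and, Fin.insertNth_apply_same] at this
      rw [this]
      intro hi
      obtain ⟨k, _, hk⟩ := mem_map.mp hi
      exact Fin.succAbove_ne i k hk
  · rintro ⟨h1, h2⟩
    ext l
    revert l
    rw [Fin.forall_iff_succAbove i]
    constructor
    · simp only [tr, mem_filter, mem_univ, true_and, Fin.insertNth_apply_same]
      constructor
      · intro h; exact absurd h h2
      · intro hi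
        obtain ⟨k, _, hk⟩ := mem_map.mp hi
        exact absurd hk (Fin.succAbove_ne i k)
    · intro k
      simp only [tr, mem_filter, mem_univ, true_and, Fin.insertNth_apply_succAbove]
      rw [← h1]
      constructor
      · intro h; exact mem_map.mpr ⟨k, by simpa [tr] using h, rfl⟩
      · intro hk
        obtain ⟨k', hk', hkk⟩ := mem_map.mp hk
        have : k' = k := Fin.succAbove_right_injective hkk
        rw [this] at hk'
        simpa [tr] using hk'

theorem tr_insertNth' {T : ℕ} (i : Fin (T + 1)) (a : α) (y : Fin T → α) (A : Finset α)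
    (P : Finset (Fin T)) :
    tr (i.insertNth (α := fun _ => α) a y) A = insert i (P.map i.succAboveEmb) ↔
      tr y A = P ∧ a ∈ A := by
  constructor
  · intro h
    have h1 : ∀ l, l ∈ tr (i.insertNth (α := fun _ => α) a y) A ↔
        l ∈ insert i (P.map i.succAboveEmb) := fun l => by rw [h]
    constructor
    · ext k
      have := h1 (i.succAbove k)
      simp only [tr, mem_filter, mem_univ, true_and, Fin.insertNth_apply_succAbove] at this ⊢
      rw [this]
      constructor
      · intro hk
        rcases mem_insert.mp hk with h' | h'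
        · exact absurd h' (Fin.succAbove_ne i k)
        · obtain ⟨k', hk', hkk⟩ := mem_map.mp h'
          have : k' = k := Fin.succAbove_right_injective hkk
          rwa [← this]
      · intro hk; exact mem_insert_of_mem (mem_map.mpr ⟨k, hk, rfl⟩)
    · have := h1 i
      simp only [tr, mem_filter, mem_univ, true_and, Fin.insertNth_apply_same] at this
      rw [this]
      exact mem_insert_self _ _
  · rintro ⟨h1, h2⟩
    ext l
    revert l
    rw [Fin.forall_iff_succAbove i]
    constructor
    · simp only [tr, mem_filter, mem_univ, true_and, Fin.insertNth_apply_same]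
      constructor
      · intro _; exact mem_insert_self _ _
      · intro _; exact h2
    · intro k
      simp only [tr, mem_filter, mem_univ, true_and, Fin.insertNth_apply_succAbove]
      rw [← h1]
      constructor
      · intro h; exact mem_insert_of_mem (mem_map.mpr ⟨k, by simpa [tr] using h, rfl⟩)
      · intro hk
        rcases mem_insert.mp hk with h' | h'
        · exact absurd h' (Fin.succAbove_ne i k)
        · obtain ⟨k', hk', hkk⟩ := mem_map.mp h'
          have : k' = k := Fin.succAbove_right_injective hkk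
          rw [this] at hk'
          simpa [tr] using hk'

theorem Wi_insertNth {T : ℕ} (𝒜 : Finset (Finset α)) (i : Fin (T + 1)) (a : α) (y : Fin T → α) :
    Wi 𝒜 (i.insertNth (α := fun _ => α) a y) i =
      ∑ P : Finset (Fin T), min ((𝒜.filter (fun A => tr y A = P)).filter (fun A => a ∉ A)).card
        ((𝒜.filter (fun A => tr y A = P)).filter (fun A => a ∈ A)).card := by
  unfold Wi
  symm
  refine sum_bij (fun P _ => P.map i.succAboveEmb) ?_ ?_ ?_ ?_
  · intro P _
    rw [mem_filter]
    refine ⟨mem_univ _, fun hi => ?_⟩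
    obtain ⟨k, _, hk⟩ := mem_map.mp hi
    exact Fin.succAbove_ne i k hk
  · intro P _ P' _ h
    exact map_injective _ h
  · intro Q hQ
    rw [mem_filter] at hQ
    refine ⟨univ.filter (fun k => i.succAbove k ∈ Q), mem_univ _, ?_⟩
    ext l
    revert l
    rw [Fin.forall_iff_succAbove i]
    constructor
    · constructor
      · intro hi
        obtain ⟨k, _, hk⟩ := mem_map.mp hi
        exact absurd hk (Fin.succAbove_ne i k)
      · intro h; exact absurd h hQ.2
    · intro k
      constructor
      · intro hk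
        obtain ⟨k', hk', hkk⟩ := mem_map.mp hk
        rw [mem_filter] at hk'
        have : k' = k := Fin.succAbove_right_injective hkk
        rw [← this]; exact hk'.2
      · intro h
        exact mem_map.mpr ⟨k, by rw [mem_filter]; exact ⟨mem_univ _, h⟩, rfl⟩
  · intro P _
    unfold wt
    rw [filter_filter, filter_filter]
    congr 1
    · congr 1
      ext A
      simp only [mem_filter, tr_insertNth]
    · congr 1
      ext A
      simp only [mem_filter, tr_insertNth']

end H2

theorem t_H2 : S_H2 := by
  intro hT α _ _ 𝒜 r T i hr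
  set Φ : ℕ := ∑ j ∈ Finset.Iic 𝒜.vcDim, T.choose j with hΦ
  -- bound for one `y`
  have hy : ∀ y : Fin T → α, (r : ℝ) * ((𝒜.card : ℝ) - (Φ : ℝ)) ≤
      2 * ∑ a : α, (Wi 𝒜 (i.insertNth (α := fun _ => α) a y) i : ℝ) := by
    intro y
    set C : Finset (Fin T) → Finset (Finset α) := fun P => 𝒜.filter (fun A => tr y A = P) with hC
    set I := 𝒜.image (tr y) with hI
    -- number of classes
    have hIc : I.card ≤ Φ := by
      have h1 : I.vcDim ≤ 𝒜.vcDim := hT α 𝒜 T y I fun Q hQ => by
        rw [hI, mem_image] at hQ; exact hQ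
      have h2 := (card_le_card_shatterer I).trans card_shatterer_le_sum_vcDim
      refine h2.trans ?_
      rw [Fintype.card_fin, hΦ]
      exact sum_le_sum_of_subset (Iic_subset_Iic.mpr h1)
    have hsumC : ∑ P ∈ I, (C P).card = 𝒜.card := by
      rw [hI]
      exact (card_eq_sum_card_image (tr y) 𝒜).symm
    have hcl : ∀ P ∈ I, ((C P).card - 1) * r ≤ 2 * ∑ a, min ((C P).filter (fun A => a ∉ A)).card
        ((C P).filter (fun A => a ∈ A)).card := by
      intro P hP
      refine class_bound (C P) r (fun A hA B hB hAB => ?_) ?_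
      · simp only [hC, mem_filter] at hA hB
        exact hr A hA.1 B hB.1 hAB
      · rw [hI, mem_image] at hP
        obtain ⟨A, hA, hAP⟩ := hP
        exact ⟨A, by simp only [hC, mem_filter]; exact ⟨hA, hAP⟩⟩
    have hpos : ∀ P ∈ I, 1 ≤ (C P).card := by
      intro P hP
      rw [hI, mem_image] at hP
      obtain ⟨A, hA, hAP⟩ := hP
      exact card_pos.mpr ⟨A, by simp only [hC, mem_filter]; exact ⟨hA, hAP⟩⟩
    have hN : (𝒜.card - I.card) * r ≤ 2 * ∑ a, Wi 𝒜 (i.insertNth (α := fun _ => α) a y) i := by
      have h1 : 𝒜.card - I.card = ∑ P ∈ I, ((C P).card - 1) := by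
        have h2 : ∑ P ∈ I, ((C P).card - 1) + I.card = 𝒜.card := by
          rw [card_eq_sum_ones, ← sum_add_distrib, ← hsumC]
          refine sum_congr rfl fun P hP => ?_
          have := hpos P hP
          omega
        omega
      rw [h1, sum_mul]
      refine (sum_le_sum hcl).trans ?_
      rw [← mul_sum]
      refine Nat.mul_le_mul_left _ ?_
      rw [sum_comm]
      refine sum_le_sum fun a _ => ?_
      rw [Wi_insertNth]
      exact sum_le_sum_of_subset (subset_univ _)
    have hNR : (((𝒜.card - I.card : ℕ) : ℝ)) * r ≤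
        2 * ∑ a : α, (Wi 𝒜 (i.insertNth (α := fun _ => α) a y) i : ℝ) := by
      exact_mod_cast hN
    refine le_trans ?_ hNR
    rw [mul_comm]
    refine mul_le_mul_of_nonneg_right ?_ (Nat.cast_nonneg r)
    have h1 : (𝒜.card : ℝ) ≤ ((𝒜.card - I.card : ℕ) : ℝ) + I.card := by
      have : 𝒜.card ≤ (𝒜.card - I.card) + I.card := by omega
      exact_mod_cast this
    have h2 : (I.card : ℝ) ≤ Φ := by exact_mod_cast hIc
    linarith
  -- sum over `y`
  have hsum : ∑ x : Fin (T + 1) → α, (Wi 𝒜 x i : ℝ) =
      ∑ y : Fin T → α, ∑ a : α, (Wi 𝒜 (i.insertNth (α := fun _ => α) a y) i : ℝ) := by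
    rw [← (Fin.insertNthEquiv (fun _ => α) i).sum_comp (fun x => (Wi 𝒜 x i : ℝ)),
      Fintype.sum_prod_type_right]
    rfl
  rw [hsum, mul_sum]
  have h1 : (r : ℝ) * ((𝒜.card : ℝ) - (Φ : ℝ)) * (Fintype.card α : ℝ) ^ T =
      ∑ _y : Fin T → α, (r : ℝ) * ((𝒜.card : ℝ) - (Φ : ℝ)) := by
    rw [sum_const, nsmul_eq_mul, card_univ, Fintype.card_fun, Fintype.card_fin]
    push_cast
    ring
  rw [h1]
  exact sum_le_sum fun y _ => hy y

end Pool.Agent.W485.BV
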