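import Pool.Agent.W842.BV.Stms

set_option autoImplicit false

namespace Pool.Agent.W485.BV

open Finset Pool.Agent.W842.BV

section UD

variable {α : Type} [DecidableEq α]

/-- members `A` of `𝒜` with `y ∉ A` and `insert y A ∈ 𝒜` -/
def ey (y : α) (𝒜 : Finset (Finset α)) : Finset (Finset α) :=
  𝒜.filter (fun A => y ∉ A ∧ insert y A ∈ 𝒜)

theorem mem_ey {y : α} {𝒜 : Finset (Finset α)} {A : Finset α} :
    A ∈ ey y 𝒜 ↔ A ∈ 𝒜 ∧ y ∉ A ∧ insert y A ∈ 𝒜 := by
  simp [ey]

theorem ey_self (x : α) (𝒜 : Finset (Finset α)) :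
    (ey x 𝒜).card ≤ (𝒜.nonMemberSubfamily x ∩ 𝒜.memberSubfamily x).card := by
  refine card_le_card fun A hA => ?_
  rw [mem_ey] at hA
  rw [mem_inter, mem_nonMemberSubfamily, mem_memberSubfamily]
  exact ⟨⟨hA.1, hA.2.1⟩, hA.2.2, hA.2.1⟩

theorem ey_ne (x y : α) (hxy : y ≠ x) (𝒜 : Finset (Finset α)) :
    (ey y 𝒜).card ≤ (ey y (𝒜.nonMemberSubfamily x ∪ 𝒜.memberSubfamily x)).card +
      (ey y (𝒜.nonMemberSubfamily x ∩ 𝒜.memberSubfamily x)).card := by
  have h1 : (ey y 𝒜).card ≤ (ey y (𝒜.nonMemberSubfamily x)).card +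
      (ey y (𝒜.memberSubfamily x)).card := by
    rw [← card_filter_add_card_filter_not (s := ey y 𝒜) (fun A => x ∉ A)]
    refine Nat.add_le_add (card_le_card fun A hA => ?_) ?_
    · rw [mem_filter, mem_ey] at hA
      rw [mem_ey, mem_nonMemberSubfamily, mem_nonMemberSubfamily]
      refine ⟨⟨hA.1.1, hA.2⟩, hA.1.2.1, hA.1.2.2, ?_⟩
      rw [mem_insert]
      rintro (h | h)
      · exact hxy h.symm
      · exact hA.2 h
    · refine card_le_card_of_injOn (fun A => A.erase x) (fun A hA => ?_) ?_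
      · rw [mem_coe, mem_filter, mem_ey] at hA
        have hx : x ∈ A := not_not.mp hA.2
        rw [mem_coe, mem_ey, mem_memberSubfamily, mem_memberSubfamily]
        refine ⟨⟨?_, notMem_erase _ _⟩, ?_, ?_, ?_⟩
        · rw [insert_erase hx]; exact hA.1.1
        · intro h; exact hA.1.2.1 (mem_of_mem_erase h)
        · have : insert x (insert y (A.erase x)) = insert y A := by
            rw [insert_comm, insert_erase hx]
          rw [this]; exact hA.1.2.2
        · rw [mem_insert]
          rintro (h | h)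
          · exact hxy h.symm
          · exact notMem_erase _ _ h
      · intro A hA B hB hAB
        rw [mem_coe, mem_filter] at hA hB
        have hxA : x ∈ A := not_not.mp hA.2
        have hxB : x ∈ B := not_not.mp hB.2
        simp only at hAB
        rw [← insert_erase hxA, ← insert_erase hxB, hAB]
  refine h1.trans ?_
  rw [← card_union_add_card_inter]
  refine Nat.add_le_add (card_le_card fun A hA => ?_) (card_le_card fun A hA => ?_)
  · rw [mem_union, mem_ey, mem_ey] at hA
    rw [mem_ey, mem_union, mem_union]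
    rcases hA with h | h
    · exact ⟨Or.inl h.1, h.2.1, Or.inl h.2.2⟩
    · exact ⟨Or.inr h.1, h.2.1, Or.inr h.2.2⟩
  · rw [mem_inter, mem_ey, mem_ey] at hA
    rw [mem_ey, mem_inter, mem_inter]
    exact ⟨⟨hA.1.1, hA.2.1⟩, hA.1.2.1, hA.1.2.2, hA.2.2.2⟩

theorem notMem_of_shatters {x : α} {𝒜 : Finset (Finset α)} {S : Finset α}
    (h : ∀ A ∈ 𝒜, x ∉ A) (hS : 𝒜.Shatters S) : x ∉ S := by
  obtain ⟨u, hu, hSu⟩ := hS.exists_superset
  exact fun hx => h u hu (hSu hx)

theorem vc_union (x : α) (𝒜 : Finset (Finset α)) (d : ℕ) (hd : 𝒜.vcDim ≤ d) :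
    (𝒜.nonMemberSubfamily x ∪ 𝒜.memberSubfamily x).vcDim ≤ d := by
  refine Finset.sup_le fun S hS => ?_
  rw [mem_shatterer] at hS
  have hx : x ∉ S := notMem_of_shatters (fun A hA => by
    rw [mem_union, mem_nonMemberSubfamily, mem_memberSubfamily] at hA
    rcases hA with h | h
    · exact h.2
    · exact h.2) hS
  have : 𝒜.Shatters S := by
    intro t ht
    obtain ⟨u, hu, hut⟩ := hS ht
    rw [mem_union, mem_nonMemberSubfamily, mem_memberSubfamily] at hu
    rcases hu with h | h
    · exact ⟨u, h.1, hut⟩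
    · refine ⟨insert x u, h.1, ?_⟩
      rw [inter_insert_of_notMem hx, hut]
  exact this.card_le_vcDim.trans hd

theorem vc_inter (x : α) (𝒜 : Finset (Finset α)) (S : Finset α)
    (hS : (𝒜.nonMemberSubfamily x ∩ 𝒜.memberSubfamily x).Shatters S) :
    S.card + 1 ≤ 𝒜.vcDim := by
  have hx : x ∉ S := notMem_of_shatters (fun A hA => by
    rw [mem_inter, mem_nonMemberSubfamily] at hA
    exact hA.1.2) hS
  have : 𝒜.Shatters (insert x S) := by
    intro t ht
    by_cases hxt : x ∈ t
    · have h1 : t.erase x ⊆ S := by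
        intro y hy
        have := ht (mem_of_mem_erase hy)
        rw [mem_insert] at this
        rcases this with h | h
        · exact absurd h (ne_of_mem_erase hy)
        · exact h
      obtain ⟨u, hu, hut⟩ := hS h1
      rw [mem_inter, mem_nonMemberSubfamily, mem_memberSubfamily] at hu
      refine ⟨insert x u, hu.2.1, ?_⟩
      rw [← insert_inter_distrib, hut, insert_erase hxt]
    · have h1 : t ⊆ S := by
        intro y hy
        have := ht hy
        rw [mem_insert] at this
        rcases this with h | h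
        · exact absurd (h ▸ hy) hxt
        · exact h
      obtain ⟨u, hu, hut⟩ := hS h1
      rw [mem_inter, mem_nonMemberSubfamily, mem_memberSubfamily] at hu
      refine ⟨u, hu.1.1, ?_⟩
      rw [insert_inter_of_notMem hu.1.2, hut]
  have h2 := this.card_le_vcDim
  rwa [card_insert_of_notMem hx] at h2

theorem ud_aux (X : Finset α) : ∀ (d : ℕ) (𝒜 : Finset (Finset α)), (∀ A ∈ 𝒜, A ⊆ X) →
    𝒜.vcDim ≤ d → ∑ y ∈ X, (ey y 𝒜).card ≤ d * 𝒜.card := by
  induction X using Finset.induction_on with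
  | empty => intro d 𝒜 _ _; simp
  | insert x X hx ih =>
    intro d 𝒜 hsub hd
    rw [sum_insert hx]
    set 𝒰 := 𝒜.nonMemberSubfamily x ∪ 𝒜.memberSubfamily x with hU
    set ℐ := 𝒜.nonMemberSubfamily x ∩ 𝒜.memberSubfamily x with hI
    have hcard : 𝒜.card = 𝒰.card + ℐ.card := by
      rw [hU, hI, card_union_add_card_inter, add_comm]
      exact (card_memberSubfamily_add_card_nonMemberSubfamily x 𝒜).symm
    have hUsub : ∀ A ∈ 𝒰, A ⊆ X := by
      intro A hA
      rw [hU, mem_union, mem_nonMemberSubfamily, mem_memberSubfamily] at hA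
      rcases hA with h | h
      · exact (subset_insert_iff_of_notMem h.2).mp (hsub A h.1)
      · have := hsub _ h.1
        exact (subset_insert_iff_of_notMem h.2).mp ((subset_insert x A).trans this)
    have hIsub : ∀ A ∈ ℐ, A ⊆ X := fun A hA => hUsub A (by
      rw [hI, mem_inter] at hA
      rw [hU, mem_union]; exact Or.inl hA.1)
    have h1 := ey_self x 𝒜
    rw [← hI] at h1
    have h2 : ∑ y ∈ X, (ey y 𝒜).card ≤ ∑ y ∈ X, ((ey y 𝒰).card + (ey y ℐ).card) := by
      refine sum_le_sum fun y hy => ?_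
      exact ey_ne x y (fun h => hx (h ▸ hy)) 𝒜
    rw [sum_add_distrib] at h2
    have h3 := ih d 𝒰 hUsub (vc_union x 𝒜 d hd)
    rcases ℐ.eq_empty_or_nonempty with h0 | hne
    · have h4 : ∑ y ∈ X, (ey y ℐ).card = 0 := by
        refine sum_eq_zero fun y _ => ?_
        rw [h0]; simp [ey]
      have h5 : ℐ.card = 0 := by rw [h0]; simp
      rw [hcard]
      rw [h5] at h1 ⊢
      rw [h4] at h2
      simp only [add_zero] at h2 ⊢
      omega
    · have hd1 : 1 ≤ d := by
        have h5 : ℐ.Shatters ∅ := by rwa [shatters_empty]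
        have := vc_inter x 𝒜 ∅ h5
        simp only [card_empty, zero_add] at this
        omega
      obtain ⟨d', rfl⟩ : ∃ d', d = d' + 1 := ⟨d - 1, by omega⟩
      have hId : ℐ.vcDim ≤ d' := by
        refine Finset.sup_le fun S hS => ?_
        rw [mem_shatterer] at hS
        have := vc_inter x 𝒜 S hS
        omega
      have h4 := ih d' ℐ hIsub hId
      rw [hcard]
      have e : (d' + 1) * (𝒰.card + ℐ.card) = (d' + 1) * 𝒰.card + (d' * ℐ.card + ℐ.card) := by
        ring
      rw [e]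
      omega

end UD

theorem t_UD : S_UD := by
  intro α _ 𝒜
  have h1 := ud_aux (𝒜.biUnion id) 𝒜.vcDim 𝒜 (fun A hA => subset_biUnion_of_mem id hA) le_rfl
  refine le_trans ?_ h1
  have hsub : (𝒜 ×ˢ 𝒜).filter (fun p => p.1 ⊆ p.2 ∧ p.2.card = p.1.card + 1) ⊆
      (𝒜.biUnion id).biUnion (fun y => (ey y 𝒜).image (fun A => (A, insert y A))) := by
    rintro ⟨A, B⟩ hp
    rw [mem_filter, mem_product] at hp
    obtain ⟨⟨hA, hB⟩, hAB, hc⟩ := hp
    simp only at hA hB hAB hc
    obtain ⟨y, hy, hyB⟩ := Finset.exists_eq_insert_iff.mpr ⟨hAB, hc.symm⟩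
    rw [mem_biUnion]
    refine ⟨y, ?_, ?_⟩
    · rw [mem_biUnion]
      exact ⟨B, hB, by rw [id, ← hyB]; exact mem_insert_self _ _⟩
    · rw [mem_image]
      refine ⟨A, ?_, by rw [hyB]⟩
      rw [mem_ey]
      exact ⟨hA, hy, by rw [hyB]; exact hB⟩
  refine (card_le_card hsub).trans (card_biUnion_le.trans ?_)
  exact sum_le_sum fun y _ => card_image_le

end Pool.Agent.W485.BV
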